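import Mathlib
import Pool.Agent.H79.TD.Stm6

/-!
# Project SV, DCM: the factorisation of the minimal form
-/

set_option autoImplicit false

open MvPolynomial Module Pool.Agent.H77.TF Pool.Agent.H79.TD

namespace Pool.Agent.H85.TD

namespace DCM

variable {K : Type} [Field K]

/-- The factors of a form are forms. (From `Pool.Agent.H6.TD.Cor`.) -/
theorem hom_factor {p q : MvPolynomial (Fin 3) K} {n : ℕ} (h : (p * q).IsHomogeneous n)
    (hp : p ≠ 0) (hq : q ≠ 0) :
    p.IsHomogeneous p.totalDegree ∧ p.totalDegree + q.totalDegree = n := by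
  have h1 : p.totalDegree + q.totalDegree = n := by
    rw [← totalDegree_mul_of_isDomain hp hq]
    exact h.totalDegree (mul_ne_zero hp hq)
  refine ⟨?_, h1⟩
  have hord : (n : ℕ∞) ≤ (p : MvPowerSeries (Fin 3) K).order +
      (q : MvPowerSeries (Fin 3) K).order := by
    rw [← MvPowerSeries.order_mul, ← MvPolynomial.coe_mul]
    refine MvPowerSeries.le_order fun d hd => ?_
    rw [MvPolynomial.coeff_coe]
    refine h.coeff_eq_zero ?_
    have : d.degree < n := by exact_mod_cast hd
    omega
  have hqo : (q : MvPowerSeries (Fin 3) K).order ≤ (q.totalDegree : ℕ∞) := by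
    obtain ⟨s, hs⟩ := support_nonempty.2 hq
    refine le_trans (MvPowerSeries.order_le (d := s) ?_) ?_
    · rw [MvPolynomial.coeff_coe]
      exact mem_support_iff.1 hs
    · have := le_totalDegree hs
      exact_mod_cast this
  intro s hs
  have e1 : (p : MvPowerSeries (Fin 3) K).order ≤ (s.degree : ℕ∞) :=
    MvPowerSeries.order_le (d := s) (by rw [MvPolynomial.coeff_coe]; exact hs)
  have e2 : (n : ℕ∞) ≤ (s.degree : ℕ∞) + (q.totalDegree : ℕ∞) :=
    hord.trans (add_le_add e1 hqo)
  have e3 : n ≤ s.degree + q.totalDegree := by exact_mod_cast e2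
  have e4 : s.degree ≤ p.totalDegree := le_totalDegree (mem_support_iff.2 hs)
  change (Finsupp.weight (fun _ : Fin 3 => 1)) s = p.totalDegree
  rw [← Finsupp.degree_eq_weight_one]
  omega

theorem eval_lin (a : Fin 3 → K) (x : Fin 3 → K) : eval x (lin a) = ∑ j, a j * x j := by
  unfold lin
  rw [map_sum]
  exact Finset.sum_congr rfl fun j _ => by rw [map_mul, eval_C, eval_X]

theorem lin_hom (a : Fin 3 → K) : (lin a).IsHomogeneous 1 := by
  unfold lin
  apply MvPolynomial.IsHomogeneous.sum
  intro i _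
  have := (MvPolynomial.isHomogeneous_C (Fin 3) (a i)).mul (MvPolynomial.isHomogeneous_X K i)
  rwa [zero_add] at this

theorem lin_ne {a : Fin 3 → K} (ha : a ≠ 0) : lin a ≠ 0 := by
  intro h
  apply ha
  funext j
  have h1 := congrArg (eval (Pi.single j (1 : K))) h
  rw [eval_lin, map_zero] at h1
  rw [Finset.sum_eq_single j] at h1
  · rw [Pi.single_eq_same, mul_one] at h1
    exact h1
  · intro i _ hi
    rw [Pi.single_eq_of_ne hi, mul_zero]
  · intro h
    exact absurd (Finset.mem_univ j) h

theorem lin_deg {a : Fin 3 → K} (ha : a ≠ 0) : (lin a).totalDegree = 1 :=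
  (lin_hom a).totalDegree (lin_ne ha)

theorem lin_nu {a : Fin 3 → K} (ha : a ≠ 0) : ¬ IsUnit (lin a) := by
  intro h
  have h1 := MvPolynomial.isUnit_iff_totalDegree_of_isReduced.1 h
  rw [lin_deg ha] at h1
  exact one_ne_zero h1.2

theorem lin_smul (c : K) (a : Fin 3 → K) : lin (c • a) = C c * lin a := by
  unfold lin
  rw [Finset.mul_sum]
  refine Finset.sum_congr rfl fun i _ => ?_
  rw [Pi.smul_apply, smul_eq_mul, C_mul, mul_assoc]

/-- The linear factors can be taken out. -/
theorem out (α : ℕ) : ∀ f : MvPolynomial (Fin 3) K, f.IsHomogeneous α → f ≠ 0 → Squarefree f →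
    ∃ (r : ℕ) (M : Fin r → Fin 3 → K) (f₂ : MvPolynomial (Fin 3) K), Simple M ∧ r ≤ α ∧
      f = (∏ i, lin (M i)) * f₂ ∧ f₂.IsHomogeneous (α - r) ∧
      f₂ ≠ 0 ∧ Squarefree f₂ ∧ ∀ a : Fin 3 → K, a ≠ 0 → ¬ lin a ∣ f₂ := by
  induction α with
  | zero =>
    intro f hf hf0 hsq
    refine ⟨0, Fin.elim0, f, ⟨fun i => i.elim0, fun i => i.elim0⟩, le_rfl, ?_, hf, hf0, hsq, ?_⟩
    · rw [Finset.univ_eq_empty, Finset.prod_empty, one_mul]
    · rintro a ha ⟨w, rfl⟩
      have h1 := (hom_factor hf (left_ne_zero_of_mul hf0) (right_ne_zero_of_mul hf0)).2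
      rw [lin_deg ha] at h1
      omega
  | succ α ih =>
    intro f hf hf0 hsq
    by_cases h : ∃ a : Fin 3 → K, a ≠ 0 ∧ lin a ∣ f
    · obtain ⟨a, ha, w, rfl⟩ := h
      have hw0 : w ≠ 0 := right_ne_zero_of_mul hf0
      have hwl : (w * lin a).IsHomogeneous (α + 1) := by rwa [mul_comm]
      have h1 := hom_factor hwl hw0 (lin_ne ha)
      rw [lin_deg ha] at h1
      have h2 : w.totalDegree = α := by omega
      have hwh : w.IsHomogeneous α := by
        have := h1.1
        rwa [h2] at this
      have hwsq : Squarefree w := hsq.squarefree_of_dvd (dvd_mul_left w (lin a))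
      obtain ⟨r, M, f₂, hM, hr, hf₂, hh, h0, hs, hn⟩ := ih w hwh hw0 hwsq
      have hMd : ∀ i, lin (M i) ∣ w := by
        intro i
        rw [hf₂]
        exact (Finset.dvd_prod_of_mem _ (Finset.mem_univ i)).mul_right _
      have haM : ∀ i (c : K), a ≠ c • M i := by
        intro i c hc
        have hd : lin (M i) ∣ lin a := by
          rw [hc, lin_smul]
          exact dvd_mul_left _ _
        exact lin_nu (hM.1 i) (hsq _ (mul_dvd_mul hd (hMd i)))
      have hMa : ∀ i (c : K), M i ≠ c • a := by
        intro i c hc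
        have hd : lin a ∣ lin (M i) := by
          rw [hc, lin_smul]
          exact dvd_mul_left _ _
        exact lin_nu ha (hsq _ (mul_dvd_mul (dvd_refl _) (hd.trans (hMd i))))
      refine ⟨r + 1, Fin.cons a M, f₂, ⟨?_, ?_⟩, by omega, ?_, ?_, h0, hs, hn⟩
      · intro i
        refine Fin.cases ?_ (fun i => ?_) i
        · rw [Fin.cons_zero]
          exact ha
        · rw [Fin.cons_succ]
          exact hM.1 i
      · intro i j
        refine Fin.cases ?_ (fun i => ?_) i
        · refine Fin.cases ?_ (fun j => ?_) j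
          · intro h
            exact absurd rfl h
          · intro _ c
            rw [Fin.cons_zero, Fin.cons_succ]
            exact haM j c
        · refine Fin.cases ?_ (fun j => ?_) j
          · intro _ c
            rw [Fin.cons_zero, Fin.cons_succ]
            exact hMa i c
          · intro hij c
            rw [Fin.cons_succ, Fin.cons_succ]
            exact hM.2 i j (fun h => hij (by rw [h])) c
      · rw [Fin.prod_univ_succ]
        simp only [Fin.cons_zero, Fin.cons_succ]
        rw [mul_assoc, ← hf₂]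
      · rw [Nat.add_sub_add_right]
        exact hh
    · push Not at h
      refine ⟨0, Fin.elim0, f, ⟨fun i => i.elim0, fun i => i.elim0⟩, Nat.zero_le _, ?_, hf, hf0, hsq, h⟩
      rw [Finset.univ_eq_empty, Finset.prod_empty, one_mul]

end DCM

open DCM

/-- DCM. -/
theorem t_DCM : S_DCM := by
  intro K _ n A α f hA hf0 hf hmin
  obtain ⟨hfh, hfv⟩ := hf
  -- no form of smaller degree vanishes at the uncovered points
  have hno : ∀ w : MvPolynomial (Fin 3) K, w ≠ 0 → ∀ k, k < α → w.IsHomogeneous k →
      ¬ ∀ x ∈ Pts A, eval x w = 0 := by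
    intro w hw k hk hwh hv
    have h1 : w ∈ VD A k := ⟨hwh, hv⟩
    rw [hmin k hk] at h1
    exact hw ((Submodule.mem_bot K).1 h1)
  have hsq : Squarefree f := by
    rintro g ⟨h, hgh⟩
    have hg0 : g ≠ 0 := by
      rintro rfl
      apply hf0
      rw [hgh, zero_mul, zero_mul]
    have hgh0 : g * h ≠ 0 := by
      intro h1
      apply hf0
      rw [hgh, mul_assoc, h1, mul_zero]
    have h1 : ((g * h) * g).IsHomogeneous α := by
      have : (g * h) * g = f := by rw [hgh]; ring
      rwa [this]
    have h2 := hom_factor h1 hgh0 hg0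
    by_contra hu
    have hg1 : g.totalDegree ≠ 0 := by
      intro h0
      apply hu
      rw [MvPolynomial.totalDegree_eq_zero_iff_eq_C.1 h0]
      have hc : coeff 0 g ≠ 0 := by
        intro hc
        apply hg0
        rw [MvPolynomial.totalDegree_eq_zero_iff_eq_C.1 h0, hc, C_0]
      exact (isUnit_iff_ne_zero.2 hc).map C
    refine hno (g * h) hgh0 (g * h).totalDegree (by omega) h2.1 ?_
    intro x hx
    have h3 := hfv x hx
    rw [hgh, map_mul, map_mul] at h3
    rw [map_mul]
    rcases mul_eq_zero.1 h3 with h4 | h4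
    · rcases mul_eq_zero.1 h4 with h5 | h5 <;> rw [h5, zero_mul]
    · rw [h4, mul_zero]
  have hAf : ∀ j, ¬ lin (A j) ∣ f := by
    rintro j ⟨w, hw⟩
    have hw0 : w ≠ 0 := by
      rintro rfl
      apply hf0
      rw [hw, mul_zero]
    have h1 : (w * lin (A j)).IsHomogeneous α := by
      rw [mul_comm, ← hw]
      exact hfh
    have h2 := hom_factor h1 hw0 (lin_ne (hA.1 j))
    rw [lin_deg (hA.1 j)] at h2
    refine hno w hw0 w.totalDegree (by omega) h2.1 ?_
    intro x hx
    have h3 := hfv x hx
    rw [hw, map_mul, eval_lin] at h3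
    rcases mul_eq_zero.1 h3 with h4 | h4
    · exact absurd h4 (hx j)
    · exact h4
  obtain ⟨r, M, f₂, hM, hr, hf₂, hh, h0, hs, hn⟩ := out α f hfh hf0 hsq
  refine ⟨r, M, f₂, hM, hr, ?_, hf₂, hh, h0, hs, hn⟩
  intro i j c hc
  apply hAf j
  have hd : lin (A j) ∣ lin (M i) := by
    rw [hc, lin_smul]
    exact dvd_mul_left _ _
  refine hd.trans ?_
  rw [hf₂]
  exact (Finset.dvd_prod_of_mem _ (Finset.mem_univ i)).mul_right _

end Pool.Agent.H85.TD
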