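import Mathlib
import Pool.Agent.H79.TD.Stm4

/-!
# Project EX over arbitrary fields, DPR: the data of Saito's criterion over a product
-/

set_option autoImplicit false

open MvPolynomial Module Pool.Agent.H77.TF Pool.Agent.H77.GR Pool.Agent.H79.TD

namespace Pool.Agent.H85.TD

namespace DPR

variable {Λ : Type} {k : Λ → Type} [∀ x, CommRing (k x)]

/-- Equality over the product can be checked over every factor. -/
theorem ext_prod (p q : MvPolynomial (Fin 3) (∀ x, k x))
    (h : ∀ x, MvPolynomial.map (Pi.evalRingHom k x) p = MvPolynomial.map (Pi.evalRingHom k x) q) :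
    p = q := by
  apply MvPolynomial.ext
  intro m
  funext x
  have := congrArg (MvPolynomial.coeff m) (h x)
  rw [MvPolynomial.coeff_map, MvPolynomial.coeff_map] at this
  exact this

/-- Homogeneous polynomials of a fixed degree can be assembled. -/
theorem assemble (d : ℕ) (p : ∀ x, MvPolynomial (Fin 3) (k x)) (hp : ∀ x, (p x).IsHomogeneous d) :
    ∃ q : MvPolynomial (Fin 3) (∀ x, k x), q.IsHomogeneous d ∧
      ∀ x, MvPolynomial.map (Pi.evalRingHom k x) q = p x := by
  classical
  refine ⟨∑ m ∈ Finset.finsuppAntidiag (Finset.univ : Finset (Fin 3)) d,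
    MvPolynomial.monomial m (fun x => MvPolynomial.coeff m (p x)), ?_, ?_⟩
  · apply MvPolynomial.IsHomogeneous.sum
    intro m hm
    apply MvPolynomial.isHomogeneous_monomial
    rw [Finset.mem_finsuppAntidiag] at hm
    rw [Finsupp.degree_eq_sum]
    exact hm.1
  · intro x
    apply MvPolynomial.ext
    intro m
    rw [MvPolynomial.coeff_map, MvPolynomial.coeff_sum]
    by_cases hm : m ∈ Finset.finsuppAntidiag (Finset.univ : Finset (Fin 3)) d
    · rw [Finset.sum_eq_single m]
      · rw [MvPolynomial.coeff_monomial, if_pos rfl]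
        rfl
      · intro m' _ hne
        rw [MvPolynomial.coeff_monomial, if_neg hne]
      · intro h
        exact absurd hm h
    · rw [Finset.sum_eq_zero, map_zero]
      · symm
        by_contra hc
        apply hm
        rw [Finset.mem_finsuppAntidiag]
        have := hp x hc
        refine ⟨?_, Finset.subset_univ _⟩
        rw [← Finsupp.degree_eq_sum, Finsupp.degree_eq_weight_one]
        exact this
      · intro m' hm'
        rw [MvPolynomial.coeff_monomial, if_neg]
        rintro rfl
        exact hm hm'

theorem linR_hom {S : Type} [CommRing S] (a : Fin 3 → S) : (linR a).IsHomogeneous 1 := by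
  unfold linR
  apply MvPolynomial.IsHomogeneous.sum
  intro i _
  have := (MvPolynomial.isHomogeneous_C (Fin 3) (a i)).mul (MvPolynomial.isHomogeneous_X S i)
  rwa [zero_add] at this

theorem evlR_hom {S : Type} [CommRing S] (a : Fin 3 → S) (v : Fin 3 → MvPolynomial (Fin 3) S) (d : ℕ)
    (hv : ∀ i, (v i).IsHomogeneous d) : (evlR a v).IsHomogeneous d := by
  unfold evlR
  apply MvPolynomial.IsHomogeneous.sum
  intro i _
  have := (MvPolynomial.isHomogeneous_C (Fin 3) (a i)).mul (hv i)
  rwa [zero_add] at this

/-- The homogeneous components of a multiple of a form of degree one. -/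
theorem comp_mul {S : Type} [CommRing S] (l G : MvPolynomial (Fin 3) S) (hl : l.IsHomogeneous 1) (d : ℕ) :
    MvPolynomial.homogeneousComponent (d + 1) (l * G) = l * MvPolynomial.homogeneousComponent d G := by
  classical
  have hG : ∀ i, MvPolynomial.homogeneousComponent (d + 1) (l * MvPolynomial.homogeneousComponent i G)
      = if i = d then l * MvPolynomial.homogeneousComponent i G else 0 := by
    intro i
    have h1 : (l * MvPolynomial.homogeneousComponent i G).IsHomogeneous (1 + i) :=
      hl.mul (MvPolynomial.homogeneousComponent_isHomogeneous i G)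
    rw [MvPolynomial.homogeneousComponent_of_mem ((MvPolynomial.mem_homogeneousSubmodule _ _).2 h1)]
    by_cases h : i = d
    · rw [if_pos h, if_pos (by omega)]
    · rw [if_neg h, if_neg (by omega)]
  conv_lhs => rw [← MvPolynomial.sum_homogeneousComponent G, Finset.mul_sum, map_sum]
  rw [Finset.sum_congr rfl (fun i _ => hG i), Finset.sum_ite_eq' (Finset.range (G.totalDegree + 1)) d]
  split_ifs with h
  · rfl
  · rw [MvPolynomial.homogeneousComponent_eq_zero d G (by
      rw [Finset.mem_range] at h; omega), mul_zero]

theorem comp_mul_zero {S : Type} [CommRing S] (l G : MvPolynomial (Fin 3) S) (hl : l.IsHomogeneous 1) :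
    MvPolynomial.homogeneousComponent 0 (l * G) = 0 := by
  classical
  conv_lhs => rw [← MvPolynomial.sum_homogeneousComponent G, Finset.mul_sum, map_sum]
  apply Finset.sum_eq_zero
  intro i _
  have h1 : (l * MvPolynomial.homogeneousComponent i G).IsHomogeneous (1 + i) :=
    hl.mul (MvPolynomial.homogeneousComponent_isHomogeneous i G)
  rw [MvPolynomial.homogeneousComponent_of_mem ((MvPolynomial.mem_homogeneousSubmodule _ _).2 h1),
    if_neg (by omega)]

/-- The cofactor can be chosen homogeneous. -/
theorem cofactor {S : Type} [CommRing S] (l H : MvPolynomial (Fin 3) S) (hl : l.IsHomogeneous 1) (d : ℕ)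
    (hH : H.IsHomogeneous d) (h : l ∣ H) :
    ∃ G : MvPolynomial (Fin 3) S, G.IsHomogeneous (d - 1) ∧ H = l * G := by
  obtain ⟨G, rfl⟩ := h
  have h1 : MvPolynomial.homogeneousComponent d (l * G) = l * G := by
    rw [MvPolynomial.homogeneousComponent_of_mem ((MvPolynomial.mem_homogeneousSubmodule _ _).2 hH),
      if_pos rfl]
  rcases d with _ | d
  · refine ⟨0, MvPolynomial.isHomogeneous_zero _ _ _, ?_⟩
    rw [mul_zero, ← h1]
    exact comp_mul_zero l G hl
  · refine ⟨MvPolynomial.homogeneousComponent d G, MvPolynomial.homogeneousComponent_isHomogeneous d G, ?_⟩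
    rw [← comp_mul l G hl d, h1]

theorem map_linR {S T : Type} [CommRing S] [CommRing T] (f : S →+* T) (a : Fin 3 → S) :
    MvPolynomial.map f (linR a) = linR (fun i => f (a i)) := by
  unfold linR
  rw [map_sum]
  refine Finset.sum_congr rfl (fun i _ => ?_)
  rw [map_mul, MvPolynomial.map_C, MvPolynomial.map_X]

theorem map_evlR {S T : Type} [CommRing S] [CommRing T] (f : S →+* T) (a : Fin 3 → S)
    (v : Fin 3 → MvPolynomial (Fin 3) S) :
    MvPolynomial.map f (evlR a v) = evlR (fun i => f (a i)) (fun i => MvPolynomial.map f (v i)) := by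
  unfold evlR
  rw [map_sum]
  refine Finset.sum_congr rfl (fun i _ => ?_)
  rw [map_mul, MvPolynomial.map_C]

end DPR

open DPR

/-- DPR. -/
theorem t_DPR : S_DPR := by
  classical
  intro Λ k _ n A e hD
  choose V c hc hhom hdvd hdet using hD
  -- assemble the vector fields
  have hW : ∀ j i, ∃ q : MvPolynomial (Fin 3) (∀ x, k x), q.IsHomogeneous (e j) ∧
      ∀ x, MvPolynomial.map (Pi.evalRingHom k x) q = V x j i :=
    fun j i => assemble (e j) (fun x => V x j i) (fun x => hhom x j i)
  choose W hWh hWm using hW
  refine ⟨W, fun x => c x, ?_, hWh, ?_, ?_⟩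
  · rw [Pi.isUnit_iff]
    exact hc
  · intro j i
    have hcof : ∀ x, ∃ G : MvPolynomial (Fin 3) (k x), G.IsHomogeneous (e j - 1) ∧
        evlR (fun t => A i t x) (V x j) = linR (fun t => A i t x) * G := fun x =>
      cofactor _ _ (linR_hom _) (e j) (evlR_hom _ _ _ (fun t => hhom x j t)) (hdvd x j i)
    choose G hGh hGm using hcof
    obtain ⟨Q, _, hQm⟩ := assemble (e j - 1) G hGh
    refine ⟨Q, ?_⟩
    apply ext_prod
    intro x
    rw [map_mul, map_evlR, map_linR, hQm]
    have h1 : (fun t => MvPolynomial.map (Pi.evalRingHom k x) (W j t)) = V x j :=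
      funext (fun t => hWm j t x)
    rw [h1]
    exact hGm x
  · apply ext_prod
    intro x
    rw [RingHom.map_det, map_mul, MvPolynomial.map_C, map_prod]
    have h1 : (MvPolynomial.map (Pi.evalRingHom k x)).mapMatrix (Matrix.of W) = Matrix.of (V x) := by
      ext1 j i
      exact hWm j i x
    rw [h1, hdet x]
    have h2 : ∀ i, MvPolynomial.map (Pi.evalRingHom k x) (linR (A i)) = linR (fun t => A i t x) := by
      intro i
      rw [map_linR]
      rfl
    rw [Finset.prod_congr rfl (fun i _ => h2 i)]
    rfl

end Pool.Agent.H85.TD
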